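import Pool.Agent.K1H5.PLN.Stm2
import Pool.Agent.K1H59.PLN.Pt

set_option autoImplicit false

/-! # Project PLN: deep points (by helper7) -/

namespace Pool.Agent.K1H7.PLN.Deep

open Matrix Topology Filter Set
open Pool.Agent.K1H5.PLN Pool.Agent.K1H59.PLN

variable {n : ℕ}

/-- contained in a finite union of slabs -/
def Slab (r : ℝ) (Z : Set (V n)) : Prop :=
  ∃ S : Finset (V n × ℝ), (∀ l ∈ S, l.1 ≠ 0) ∧ ∀ x ∈ Z, ∃ l ∈ S, |ev l x| ≤ r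

theorem tr_ne (g : Matrix (Fin n) (Fin n) ℝ × V n) (hg : IsUnit g.1.det) (l : V n × ℝ)
    (hl : l.1 ≠ 0) : (tr g l).1 ≠ 0 := by
  intro h
  apply hl
  have h1 : l.1 ᵥ* g.1⁻¹ = 0 := h
  have h2 : (l.1 ᵥ* g.1⁻¹) ᵥ* g.1 = 0 := by
    rw [h1, zero_vecMul]
  rwa [vecMul_vecMul, Matrix.nonsing_inv_mul _ hg, vecMul_one] at h2

theorem slab_image (r : ℝ) (t : V n ≃ₜ V n) (ht : IsPL ⊤ t) (Z : Set (V n)) (hZ : Slab r Z) :
    Slab r (t '' Z) := by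
  classical
  obtain ⟨Λ, G, hD⟩ := ht
  obtain ⟨S, hS2, hS3⟩ := hZ
  have hu : ∀ g ∈ G, IsUnit g.1.det := by
    intro g hg
    obtain ⟨M', -, -, h1, h2⟩ := hD.2.1 g hg
    exact Matrix.isUnit_det_of_left_inverse h2
  refine ⟨(G ×ˢ S).image (fun p => tr p.1 p.2), ?_, ?_⟩
  · intro l hl
    obtain ⟨p, hp, rfl⟩ := Finset.mem_image.1 hl
    rw [Finset.mem_product] at hp
    exact tr_ne p.1 (hu _ hp.1) p.2 (hS2 _ hp.2)
  · rintro y ⟨x, hx, rfl⟩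
    obtain ⟨l, hl, h1⟩ := hS3 x hx
    obtain ⟨g, hg, e⟩ := exists_affine t Λ G hD x
    refine ⟨tr g l, Finset.mem_image.2 ⟨(g, l), Finset.mem_product.2 ⟨hg, hl⟩, rfl⟩, ?_⟩
    rw [e, ev_tr g (hu g hg)]
    exact h1

theorem slab_pow (r : ℝ) (t : V n ≃ₜ V n) (ht : IsPL ⊤ t) (Z : Set (V n)) (hZ : Slab r Z)
    (i : ℕ) : Slab r ((t ^ i) '' Z) := by
  induction i with
  | zero =>
    have e : ((t ^ 0 : V n ≃ₜ V n) '' Z) = Z := by
      rw [pow_zero]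
      ext x
      constructor
      · rintro ⟨y, hy, rfl⟩
        exact hy
      · intro hx
        exact ⟨x, hx, rfl⟩
    rw [e]
    exact hZ
  | succ i ih =>
    have e : ((t ^ (i + 1) : V n ≃ₜ V n) '' Z) = t '' ((t ^ i) '' Z) := by
      rw [pow_succ']
      ext x
      constructor
      · rintro ⟨y, hy, rfl⟩
        exact ⟨(t ^ i) y, ⟨y, hy, rfl⟩, rfl⟩
      · rintro ⟨y, ⟨w, hw, rfl⟩, rfl⟩
        exact ⟨w, hw, rfl⟩
    rw [e]
    exact slab_image r t ht _ ih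

theorem outside (r : ℝ) (S : Finset (V n × ℝ)) (hS : ∀ l ∈ S, l.1 ≠ 0) :
    ∃ x : V n, ∀ l ∈ S, r < |ev l x| := by
  have hd : Dense (⋂ l ∈ (S : Set (V n × ℝ)), {x : V n | ev (l.1, 0) x ≠ 0}) :=
    dense_biInter_of_isOpen (fun l _ => open_ev _) S.countable_toSet
      (fun l hl => dense_ev _ (hS l hl))
  obtain ⟨u, hu⟩ := hd.nonempty
  simp only [mem_iInter, Finset.mem_coe] at hu
  have key : ∀ᶠ s : ℝ in atTop, ∀ l ∈ S, r < |ev l (s • u)| := by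
    rw [Filter.eventually_all_finset]
    intro l hl
    have hc : l.1 ⬝ᵥ u ≠ 0 := by
      have h1 : ev (l.1, 0) u ≠ 0 := hu l hl
      unfold ev at h1
      simpa using h1
    have hc' : 0 < |l.1 ⬝ᵥ u| := abs_pos.2 hc
    filter_upwards [eventually_ge_atTop ((|r| + |l.2| + 1) / |l.1 ⬝ᵥ u|), eventually_ge_atTop 0]
      with s hs hs0
    have h2 : ev l (s • u) = s * (l.1 ⬝ᵥ u) + l.2 := by
      unfold ev
      rw [dotProduct_smul, smul_eq_mul]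
    rw [h2]
    rw [div_le_iff₀ hc'] at hs
    have h3 : |s * (l.1 ⬝ᵥ u)| ≤ |s * (l.1 ⬝ᵥ u) + l.2| + |l.2| := by
      have := abs_sub (s * (l.1 ⬝ᵥ u) + l.2) l.2
      rwa [add_sub_cancel_right] at this
    rw [abs_mul, abs_of_nonneg hs0] at h3
    have h4 := le_abs_self r
    linarith
  obtain ⟨s, hs⟩ := key.exists
  exact ⟨s • u, hs⟩

theorem t_DEEP : S_DEEP := by
  classical
  intro n t ht Λ hΛ h0 r K
  have h1 : Slab r {x : V n | ∃ l ∈ Λ, |ev l x| ≤ r} := by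
    refine ⟨hΛ.toFinset, fun l hl => h0 l (hΛ.mem_toFinset.1 hl), ?_⟩
    rintro x ⟨l, hl, hx⟩
    exact ⟨l, hΛ.mem_toFinset.2 hl, hx⟩
  choose S hS1 hS2 using fun i : ℕ => slab_pow r t ht _ h1 i
  obtain ⟨x, hx⟩ := outside r ((Finset.range (K + 1)).biUnion S) (by
    intro l hl
    obtain ⟨i, -, hi⟩ := Finset.mem_biUnion.1 hl
    exact hS1 i l hi)
  refine ⟨x, fun i hi l hl => ?_⟩
  by_contra hcon
  rw [not_lt] at hcon
  obtain ⟨l', hl', h2⟩ := hS2 i x ⟨(t⁻¹ ^ i) x, ⟨l, hl, hcon⟩, by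
    rw [← Homeomorph.mul_apply, inv_pow, mul_inv_cancel]
    rfl⟩
  have h3 := hx l' (Finset.mem_biUnion.2 ⟨i, Finset.mem_range.2 (by omega), hl'⟩)
  linarith

end Pool.Agent.K1H7.PLN.Deep

namespace Pool.Agent.K1H7.PLN

/-- deep points -/
theorem t_DEEP : Pool.Agent.K1H5.PLN.S_DEEP := Deep.t_DEEP

end Pool.Agent.K1H7.PLN
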