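import Pool.Agent.K1H5.PLN.Stm
import Pool.Agent.W432.PC.Points

set_option autoImplicit false

/-! # Project PLN: dense open sets (by helper7) -/

namespace Pool.Agent.K1H7.PLN

open Matrix Topology Filter Pool.Agent.K1H5.PLN

theorem t_PRM : S_PRM := by
  intro T
  classical
  let R0 := Algebra.adjoin ℤ (T : Set ℝ)
  have hft : Algebra.FiniteType ℤ R0 := by
    rw [← Subalgebra.fg_iff_finiteType]
    exact ⟨T, rfl⟩
  obtain ⟨P, hP⟩ := Pool.Agent.W432.PC.exists_bound_unit R0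
  refine ⟨P, fun p hp hlt hmem => hP p hp hlt ?_⟩
  have hle : Subring.closure (T : Set ℝ) ≤ R0.toSubring := by
    rw [Subring.closure_le]
    exact Algebra.subset_adjoin
  have h1 : (p : ℝ)⁻¹ ∈ R0 := hle hmem
  have hp0 : (p : ℝ) ≠ 0 := by exact_mod_cast hp.ne_zero
  have h2 : (p : R0) * (⟨(p : ℝ)⁻¹, h1⟩ : R0) = 1 := by
    apply Subtype.ext
    push_cast
    exact mul_inv_cancel₀ hp0
  exact IsUnit.of_mul_eq_one _ h2

theorem cont_ev {n : ℕ} (l : V n × ℝ) : Continuous (ev l) := by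
  unfold ev
  exact (Continuous.dotProduct continuous_const continuous_id).add continuous_const

theorem tends_line {n : ℕ} (x w : V n) : Tendsto (fun ε : ℝ => x + ε • w) (𝓝 0) (𝓝 x) := by
  have h : Continuous fun ε : ℝ => x + ε • w := by fun_prop
  have h1 := h.tendsto 0
  rwa [zero_smul, add_zero] at h1

theorem dot_self_pos {n : ℕ} {a : V n} (ha : a ≠ 0) : 0 < a ⬝ᵥ a := by
  have h : 0 ≤ a ⬝ᵥ a := Finset.sum_nonneg fun i _ => mul_self_nonneg (a i)
  rcases h.lt_or_eq with h | h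
  · exact h
  · exact (ha (dotProduct_self_eq_zero.1 h.symm)).elim

theorem hyp_dense {n : ℕ} (l : V n × ℝ) (hl : l.1 ≠ 0) : Dense {x : V n | ev l x ≠ 0} := by
  intro x
  by_cases hx : ev l x = 0
  · refine mem_closure_of_tendsto ((tends_line x l.1).mono_left
      (nhdsWithin_le_nhds (s := {(0 : ℝ)}ᶜ))) ?_
    filter_upwards [self_mem_nhdsWithin] with ε hε
    have h1 : ev l (x + ε • l.1) = ev l x + ε * (l.1 ⬝ᵥ l.1) := by
      unfold ev
      rw [dotProduct_add, dotProduct_smul, smul_eq_mul]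
      ring
    show ev l (x + ε • l.1) ≠ 0
    rw [h1, hx, zero_add]
    exact mul_ne_zero hε (dot_self_pos hl).ne'
  · exact subset_closure hx

theorem hyps {n : ℕ} (Λ : Finset (V n × ℝ)) (h : ∀ l ∈ Λ, l.1 ≠ 0) :
    Dense {x : V n | ∀ l ∈ Λ, ev l x ≠ 0} := by
  classical
  induction Λ using Finset.induction_on with
  | empty =>
    have : {x : V n | ∀ l ∈ (∅ : Finset (V n × ℝ)), ev l x ≠ 0} = Set.univ := by
      ext x
      simp
    rw [this]
    exact dense_univ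
  | insert l Λ _ ih =>
    have h1 := ih fun l' hl' => h l' (Finset.mem_insert_of_mem hl')
    have h2 := hyp_dense l (h l (Finset.mem_insert_self _ _))
    have h3 : IsOpen {x : V n | ev l x ≠ 0} := isOpen_ne_fun (cont_ev l) continuous_const
    refine (h2.inter_of_isOpen_left h1 h3).mono ?_
    rintro x ⟨hx1, hx2⟩ l' hl'
    rcases Finset.mem_insert.1 hl' with rfl | hl'
    · exact hx1
    · exact hx2 l' hl'

theorem cell_mem {n : ℕ} (Λ : Finset (V n × ℝ)) (x : V n) (h : ∀ l ∈ Λ, ev l x ≠ 0) :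
    ∀ᶠ y in 𝓝 x, ∀ l ∈ Λ, 0 < ev l x * ev l y := by
  rw [Filter.eventually_all_finset]
  intro l hl
  have h1 : IsOpen {y : V n | 0 < ev l x * ev l y} :=
    isOpen_lt continuous_const (continuous_const.mul (cont_ev l))
  exact h1.mem_nhds (mul_self_pos.2 (h l hl))

theorem t_DEN1 : S_DEN1 := by
  rintro n A f ⟨Λ, G, h1, h2, h3⟩
  refine (hyps Λ h1).mono ?_
  intro x hx
  obtain ⟨g, hg, h4⟩ := h3 x hx
  refine ⟨g.1, g.2, h2 g hg, ?_⟩
  filter_upwards [cell_mem Λ x hx] with y hy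
  exact h4 y hy

theorem open_D {n : ℕ} (A : Subring ℝ) (f : V n ≃ₜ V n) : IsOpen {x | LocAff A f x} := by
  rw [isOpen_iff_mem_nhds]
  rintro x ⟨M, b, hM, h⟩
  filter_upwards [eventually_eventually_nhds.2 h] with y hy
  exact ⟨M, b, hM, hy⟩

theorem InGL_one {n : ℕ} (A : Subring ℝ) : InGL A (1 : Matrix (Fin n) (Fin n) ℝ) := by
  have h : ∀ i j, (1 : Matrix (Fin n) (Fin n) ℝ) i j ∈ A := by
    intro i j
    rw [Matrix.one_apply]
    split_ifs
    · exact A.one_mem
    · exact A.zero_mem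
  exact ⟨1, h, h, one_mul 1, one_mul 1⟩

theorem mul_entries {n : ℕ} (A : Subring ℝ) {M N : Matrix (Fin n) (Fin n) ℝ}
    (h : ∀ i j, M i j ∈ A) (h' : ∀ i j, N i j ∈ A) : ∀ i j, (M * N) i j ∈ A := by
  intro i j
  rw [Matrix.mul_apply]
  exact A.sum_mem fun k _ => A.mul_mem (h i k) (h' k j)

theorem InGL_mul {n : ℕ} {A : Subring ℝ} {M N : Matrix (Fin n) (Fin n) ℝ} (h : InGL A M)
    (h' : InGL A N) : InGL A (M * N) := by
  obtain ⟨M', h1, h2, h3, h4⟩ := h
  obtain ⟨N', k1, k2, k3, k4⟩ := h'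
  refine ⟨N' * M', mul_entries A h1 k1, mul_entries A k2 h2, ?_, ?_⟩
  · rw [Matrix.mul_assoc, ← Matrix.mul_assoc N, k3, Matrix.one_mul, h3]
  · rw [Matrix.mul_assoc, ← Matrix.mul_assoc M', h4, Matrix.one_mul, k4]

theorem t_DEN2 : S_DEN2 := by
  intro n A s hs f hf
  induction hf using Subgroup.closure_induction with
  | mem x hx => exact hs x hx
  | one =>
    have : {x | LocAff A (1 : V n ≃ₜ V n) x} = Set.univ := by
      ext x
      simp only [Set.mem_setOf_eq, Set.mem_univ, iff_true]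
      refine ⟨1, 0, InGL_one A, Eventually.of_forall fun y => ?_⟩
      rw [Matrix.one_mulVec, add_zero]
      rfl
    rw [this]
    exact dense_univ
  | mul f g _ _ h1 h2 =>
    have h3 : Dense (g ⁻¹' {x | LocAff A f x}) := h1.preimage g.isOpenMap
    refine (h2.inter_of_isOpen_left h3 (open_D A g)).mono ?_
    rintro x ⟨⟨M, b, hM, h4⟩, ⟨M', b', hM', h5⟩⟩
    refine ⟨M' * M, M' *ᵥ b + b', InGL_mul hM' hM, ?_⟩
    filter_upwards [h4, g.continuous.continuousAt.eventually h5] with y hy1 hy2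
    show f (g y) = _
    rw [hy2, hy1, Matrix.mulVec_add, Matrix.mulVec_mulVec, add_assoc]
  | inv f _ h1 =>
    have h3 : Dense (f.symm ⁻¹' {x | LocAff A f x}) := h1.preimage f.symm.isOpenMap
    refine h3.mono ?_
    rintro x ⟨M, b, ⟨M', h4, h5, h6, h7⟩, h8⟩
    refine ⟨M', -(M' *ᵥ b), ⟨M, h5, h4, h7, h6⟩, ?_⟩
    filter_upwards [f.symm.continuous.continuousAt.eventually h8] with w hw
    show f.symm w = _
    rw [f.apply_symm_apply] at hw
    have h9 : M' *ᵥ w = f.symm w + M' *ᵥ b := by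
      conv_lhs => rw [hw]
      rw [Matrix.mulVec_add, Matrix.mulVec_mulVec, h7, Matrix.one_mulVec]
    rw [h9]
    abel

theorem aff_unique {n : ℕ} (M S : Matrix (Fin n) (Fin n) ℝ) (b c y0 : V n)
    (h : ∀ᶠ y in 𝓝 y0, M *ᵥ y + b = S *ᵥ y + c) : M = S := by
  have h0 := h.self_of_nhds
  have key : ∀ w : V n, M *ᵥ w = S *ᵥ w := by
    intro w
    have h1 := ((tends_line y0 w).mono_left (nhdsWithin_le_nhds (s := {(0 : ℝ)}ᶜ))).eventually h
    obtain ⟨ε, h2, hε⟩ := (h1.and self_mem_nhdsWithin).exists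
    rw [Matrix.mulVec_add, Matrix.mulVec_add, Matrix.mulVec_smul, Matrix.mulVec_smul] at h2
    have h3 : ε • (M *ᵥ w) = ε • (S *ᵥ w) := by
      have e1 : ε • (M *ᵥ w) = (M *ᵥ y0 + ε • M *ᵥ w + b) - (M *ᵥ y0 + b) := by abel
      have e2 : ε • (S *ᵥ w) = (S *ᵥ y0 + ε • S *ᵥ w + c) - (S *ᵥ y0 + c) := by abel
      rw [e1, e2, h2, h0]
    exact smul_right_injective _ hε h3
  ext i j
  have := congrFun (key (Pi.single j 1)) i
  rwa [Matrix.mulVec_single_one, Matrix.mulVec_single_one] at this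

theorem t_INV : S_INV := by
  intro n A t hd x a S c ha h
  obtain ⟨O, hO1, hO2, hO3⟩ := eventually_nhds_iff.1 h
  have hW : IsOpen (O ∩ {y : V n | 0 < a ⬝ᵥ (y - x)}) := by
    refine hO2.inter (isOpen_lt continuous_const ?_)
    exact Continuous.dotProduct continuous_const (continuous_id.sub continuous_const)
  have hne : (O ∩ {y : V n | 0 < a ⬝ᵥ (y - x)}).Nonempty := by
    have h1 := ((tends_line x a).mono_left (nhdsWithin_le_nhds (s := Set.Ioi (0 : ℝ)))).eventually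
      (hO2.mem_nhds hO3)
    obtain ⟨ε, h2, hε⟩ := (h1.and self_mem_nhdsWithin).exists
    refine ⟨x + ε • a, h2, ?_⟩
    show 0 < a ⬝ᵥ (x + ε • a - x)
    rw [add_sub_cancel_left, dotProduct_smul, smul_eq_mul]
    exact mul_pos hε (dot_self_pos ha)
  obtain ⟨y0, hy0, M, b, hM, h2⟩ := hd.inter_open_nonempty _ hW hne
  have h3 : ∀ᶠ y in 𝓝 y0, M *ᵥ y + b = S *ᵥ y + c := by
    filter_upwards [h2, hW.mem_nhds hy0] with y hy1 hy2
    rw [← hy1]
    exact hO1 y hy2.1 (le_of_lt hy2.2)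
  rw [← aff_unique M S b c y0 h3]
  exact hM

end Pool.Agent.K1H7.PLN
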